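import Pool.Agent.Helper1.UQ.St2

/-!
Project UQ (MP_e3e162_pr), module TRV: the cases `p = 0` and `p = 1`.
-/

set_option autoImplicit false

open Finset

namespace Pool.Agent.Helper11.UQ

open Classical Pool.Agent.Helper30.RCU Pool.Agent.Helper1.UQ

universe u v

private theorem ex_zero {V : Type u} {ι : Type v} (φ : ι → Sym2 V) (p : ι → ℝ) (q : ℝ)
    (E : Finset ι) (e : ι) (h : p e = 0) (f : Finset ι → ℝ) (hf : ∀ ω, e ∉ ω → f ω = 0) :
    ex φ p q E f = 0 := by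
  unfold ex S
  rw [Finset.sum_eq_zero, zero_div]
  intro ω _
  by_cases h1 : e ∈ ω
  · have h2 : ∏ a ∈ ω, p a = 0 := Finset.prod_eq_zero h1 h
    unfold wt
    rw [h2]
    ring
  · rw [hf ω h1, mul_zero]

private theorem ex_one {V : Type u} {ι : Type v} (φ : ι → Sym2 V) (p : ι → ℝ) (q : ℝ)
    (hp : ∀ e, 0 ≤ p e) (hp1 : ∀ e, p e ≤ 1) (hq : 1 ≤ q)
    (E : Finset ι) (e : ι) (he : e ∈ E) (h : p e = 1) (f : Finset ι → ℝ)
    (hf : ∀ ω, e ∈ ω → f ω = 1) : ex φ p q E f = 1 := by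
  have h2 : S φ p q E f = S φ p q E (fun _ => 1) := by
    unfold S
    refine Finset.sum_congr rfl fun ω _ => ?_
    by_cases h1 : e ∈ ω
    · rw [hf ω h1]
    · have h3 : ∏ a ∈ E \ ω, (1 - p a) = 0 := by
        refine Finset.prod_eq_zero (i := e) (mem_sdiff.2 ⟨he, h1⟩) ?_
        rw [h]
        norm_num
      unfold wt
      rw [h3]
      ring
  unfold ex
  rw [h2]
  exact div_self (S_one_pos hp hp1 hq _).ne'

private theorem pW_bounds {V : Type u} (G : SimpleGraph V) (p : ℝ) (hp : 0 ≤ p) (hp1 : p ≤ 1) :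
    (∀ e, 0 ≤ pW G p e) ∧ ∀ e, pW G p e ≤ 1 := by
  constructor
  · rintro (e | z)
    · exact hp
    · exact zero_le_one
  · rintro (e | z)
    · exact hp1
    · exact le_rfl

theorem hTRV : StTRV.{u} := by
  intro V G p q hp hq e
  have h01 : 0 ≤ p ∧ p ≤ 1 := by
    rcases hp with rfl | rfl <;> norm_num
  obtain ⟨hb0, hb1⟩ := pW_bounds G p h01.1 h01.2
  rw [sub_nonpos]
  rcases hp with hp0 | hp1
  · rw [ex_zero (φW G) (pW G p) q (Lf G {e} ∪ Rt G (BF G {e})) (Sum.inl e) hp0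
      (fun ω => if Sum.inl e ∈ ω then 1 else 0) (fun ω h => if_neg h)]
    refine ex_nonneg hb0 hb1 hq _ fun ω => ?_
    split_ifs <;> norm_num
  · rw [ex_one (φW G) (pW G p) q hb0 hb1 hq (Lf G {e}) (Sum.inl e) (by unfold Lf; simp) hp1
      (fun ω => if Sum.inl e ∈ ω then 1 else 0) (fun ω h => if_pos h)]
    refine (ex_le hb0 hb1 hq _ (g := fun _ => (1 : ℝ)) fun ω => ?_).trans
      (ex_const hb0 hb1 hq _ _).le
    split_ifs <;> norm_num

end Pool.Agent.Helper11.UQ
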